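import Pool.Agent.Y795.PiH.Stm
import Pool.Agent.H726R2.PiA.T8
import Pool.Agent.H52R2.PiT6
import Pool.Agent.H409R2.Pi.Disc

/-!
# Project PH (helper795), job PH3 (helper275): the linear forms at the prime 2
-/

set_option autoImplicit false

open Polynomial

namespace Pool.Agent.Y275.PiH

open Pool.Agent.H326R2.Pi Pool.Agent.H726R2.PiA Pool.Agent.Y795.PiH

/-- the content of the first factor -/
theorem two_pow_dvd (n : ℕ) : ∃ Y : GaussianInt[X], (2 * (1 + Ig)) ^ n = 2 ^ (3 * n / 2) * Y := by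
  induction n using Nat.twoStepInduction with
  | zero => exact ⟨1, by simp⟩
  | one =>
    refine ⟨1 + Ig, ?_⟩
    norm_num
  | more n ih _ =>
    obtain ⟨Y, hY⟩ := ih
    refine ⟨Ig * Y, ?_⟩
    rw [show 3 * (n + 2) / 2 = 3 * n / 2 + 3 by omega, pow_add, hY, pow_add]
    linear_combination (4 * 2 ^ (3 * n / 2) * Y) * Ig_sq

/-- the polynomial `(py⁴ - 1) / 4` -/
noncomputable def gq : GaussianInt[X] :=
  -(1 - Ig) * X - 3 * Ig * X ^ 2 + 2 * (1 + Ig) * X ^ 3 - X ^ 4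

theorem py4 : py ^ 4 - 1 = 4 * gq := by
  unfold py gq
  linear_combination (6 * X ^ 2 + (-12 + 4 * Ig) * X ^ 3 + (Ig ^ 2 - 4 * Ig + 5) * X ^ 4) * Ig_sq

/-- the truncated logarithm of `py⁴` -/
theorem exists_log (ℓ : ℕ) (n : ℕ) (h : ∀ j, 1 ≤ j → j ≤ n → j ∣ ℓ) :
    ∃ Lam : GaussianInt[X], Lam.natDegree ≤ 4 * n ∧ Lam.eval 0 = 0 ∧ Lam.eval 1 = 0 ∧
      py * derivative Lam = 4 * (ℓ : GaussianInt[X]) * derivative py *
        (1 - (-(py ^ 4 - 1)) ^ n) := by
  induction n with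
  | zero => exact ⟨0, by simp, by simp, by simp, by simp⟩
  | succ n ih =>
    obtain ⟨Lam, h1, h2, h3, h4⟩ := ih fun j hj hj' => h j hj (by omega)
    obtain ⟨q, hq⟩ := h (n + 1) (by omega) le_rfl
    have hg1 : (py ^ 4 - 1).natDegree ≤ 4 := by
      refine (natDegree_sub_le _ _).trans (max_le ?_ (by simp))
      exact natDegree_pow_le.trans (Nat.mul_le_mul_left 4 natDegree_py)
    have hg0 : (py ^ 4 - 1).eval 0 = 0 := by
      simp [py]
    have hg1' : (py ^ 4 - 1).eval 1 = 0 := by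
      rw [eval_sub, eval_pow, py_one, eval_one]
      have h5 : ig ^ 4 = (ig * ig) ^ 2 := by ring
      rw [h5, ig_sq]
      norm_num
    refine ⟨Lam + C ((-1) ^ n * (q : GaussianInt)) * (py ^ 4 - 1) ^ (n + 1), ?_, ?_, ?_, ?_⟩
    · refine (natDegree_add_le _ _).trans (max_le (by omega) ?_)
      refine (natDegree_C_mul_le _ _).trans (natDegree_pow_le.trans ?_)
      calc (n + 1) * (py ^ 4 - 1).natDegree ≤ (n + 1) * 4 := Nat.mul_le_mul_left _ hg1
        _ = 4 * (n + 1) := by ring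
    · rw [eval_add, h2, eval_mul, eval_pow, hg0]
      simp
    · rw [eval_add, h3, eval_mul, eval_pow, hg1']
      simp
    · have hd : derivative ((py ^ 4 - 1) ^ (n + 1)) =
          ((n : GaussianInt[X]) + 1) * (py ^ 4 - 1) ^ n * (4 * py ^ 3 * derivative py) := by
        rw [derivative_pow_succ, derivative_sub, derivative_one, derivative_pow]
        simp only [map_add, map_natCast, map_one, Nat.cast_ofNat, map_ofNat]
        ring
      have hC : (C ((-1) ^ n * (q : GaussianInt)) : GaussianInt[X]) =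
          (-1) ^ n * (q : GaussianInt[X]) := by
        simp only [C_mul, map_pow, map_neg, map_one, map_natCast]
      have hq' : (ℓ : GaussianInt[X]) = ((n : GaussianInt[X]) + 1) * (q : GaussianInt[X]) := by
        rw [hq]
        push_cast
        ring
      rw [derivative_add, derivative_C_mul, hd, hC, mul_add, h4, hq']
      have h5 : (-(py ^ 4 - 1)) ^ (n + 1) = (-(py ^ 4 - 1)) ^ n * (1 - py ^ 4) := by
        rw [pow_succ]
        ring
      have h6 : (-(py ^ 4 - 1)) ^ n = (-1) ^ n * (py ^ 4 - 1) ^ n := by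
        rw [neg_pow]
      rw [h5, h6]
      ring

/-- homogenisation of the right hand side -/
theorem Hom_Q {R : Type*} [CommRing R] (a y : R[X]) (p t : ℕ) (ht : t ≤ 2 * p) :
    Hom a y (8 * p) ((X - 2) ^ t * WW R p) =
      (a - 2 * y) ^ (2 * p + t) * ((a - 3 * y) ^ (4 * p) * y ^ (2 * p - t)) := by
  have h2 : (X - 2 : R[X]) = X - C 2 := by simp only [map_ofNat]
  have h3 : (X - 3 : R[X]) = X - C 3 := by simp only [map_ofNat]
  have e2 : (a - 2 * y : R[X]) = a - C 2 * y := by simp only [map_ofNat]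
  have e3 : (a - 3 * y : R[X]) = a - C 3 * y := by simp only [map_ofNat]
  have h4 : ((X - C 3 : R[X]) ^ (4 * p)).natDegree ≤ 6 * p - t := by
    have := natDegree_lin_pow 0 (4 * p) (3 : R) 1 (by simp)
    rw [mul_one, zero_add] at this
    omega
  have h5 : Hom a y (6 * p - t) ((X - C 3) ^ (4 * p)) =
      (a - C 3 * y) ^ (4 * p) * y ^ (2 * p - t) := by
    have := Hom_lin_pow a y (2 * p - t) (4 * p) 3 1 (by simp)
    rwa [mul_one, Hom_one, show 2 * p - t + 4 * p = 6 * p - t by omega] at this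
  have h6 : (X - 2 : R[X]) ^ t * WW R p = (X - C 2) ^ (2 * p + t) * (X - C 3) ^ (4 * p) := by
    rw [WW, h2, h3, pow_add]
    ring
  rw [h6, e2, e3, show 8 * p = (6 * p - t) + (2 * p + t) by omega, Hom_lin_pow a y _ _ _ _ h4, h5]

/-- the power of two in the least common multiple -/
theorem lcm_two' (m : ℕ) : ∃ L' : ℕ, Nat.lcmUpto m = 2 ^ Nat.log 2 m * L' ∧ Odd L' := by
  refine ⟨Nat.lcmUpto m / 2 ^ Nat.log 2 m, ?_, ?_⟩
  · rw [← Nat.factorization_lcmUpto m Nat.prime_two]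
    exact (Nat.ordProj_mul_ordCompl_eq_self _ 2).symm
  · rw [← Nat.factorization_lcmUpto m Nat.prime_two]
    have h := Nat.not_dvd_ordCompl Nat.prime_two (Nat.lcmUpto_ne_zero m)
    rw [← Nat.not_even_iff_odd, even_iff_two_dvd]
    exact h

/-- the two-adic estimate for the integral solution -/
theorem two_int (p t : ℕ) (hp : 1 ≤ p) (ht : t ≤ 2 * p) (k : ℤ) (Φ : ℤ[X])
    (hdeg : Φ.natDegree ≤ 8 * p - 1)
    (hsol : LL (2 * p) Φ = 8 ^ (2 * p) * (Nat.lcmUpto (4 * p) : ℤ[X]) *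
      ((X - 2) ^ t * WW ℤ p - C k * (X ^ 2 - 8) ^ (2 * p))) :
    ∃ m : ℕ, Odd m ∧ ∃ w : ℤ, ((m * 2 ^ (Nat.log 2 (1000 * p ^ 2) + 4 + Nat.log 2 p) : ℕ) : ℤ) *
      Φ.eval 2 = 2 ^ (9 * p + Nat.log 2 (4 * p) + 3 * t / 2) * w := by
  obtain ⟨e, he⟩ : ∃ e, e = Nat.log 2 (4 * p) := ⟨_, rfl⟩
  obtain ⟨d, hd⟩ : ∃ d, d = Nat.log 2 (1000 * p ^ 2) := ⟨_, rfl⟩
  obtain ⟨L', hL, hL'odd⟩ := lcm_two' (4 * p)
  obtain ⟨ℓ', hℓ, hℓ'odd⟩ := lcm_two' p
  rw [← he] at hL ⊢
  rw [← hd]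
  have hel : e < 4 * p := by
    rw [he]
    exact Nat.log_lt_self 2 (by omega)
  obtain ⟨L, hLdef⟩ : ∃ L, L = Nat.lcmUpto (4 * p) := ⟨_, rfl⟩
  obtain ⟨ℓ, hℓdef⟩ : ∃ ℓ, ℓ = Nat.lcmUpto p := ⟨_, rfl⟩
  rw [← hLdef] at hL hsol
  rw [← hℓdef] at hℓ
  obtain ⟨ΦG, hΦG⟩ : ∃ F, F = Φ.map (Int.castRingHom GaussianInt) := ⟨_, rfl⟩
  have hG : LL (2 * p) ΦG = 8 ^ (2 * p) * (L : GaussianInt[X]) *
      ((X - 2) ^ t * WW GaussianInt p - C (k : GaussianInt) * (X ^ 2 - 8) ^ (2 * p)) := by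
    have h3 := congrArg (Polynomial.map (Int.castRingHom GaussianInt)) hsol
    rw [Pool.Agent.Y795.PiH.LL_map] at h3
    have h5 : (C k : ℤ[X]).map (Int.castRingHom GaussianInt) = C (k : GaussianInt) := by
      rw [Polynomial.map_C]; simp
    simp only [Polynomial.map_mul, Polynomial.map_sub, Polynomial.map_pow, Polynomial.map_ofNat,
      Polynomial.map_natCast, Polynomial.map_X, WW_map, h5] at h3
    rw [hΦG]
    exact h3
  have hdegG : ΦG.natDegree ≤ 8 * p - 1 := by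
    rw [hΦG]; exact natDegree_map_le.trans hdeg
  have hevG : ΦG.eval 2 = ((Φ.eval 2 : ℤ) : GaussianInt) := by
    rw [hΦG]
    have := Polynomial.eval_map_apply (f := Int.castRingHom GaussianInt) (p := Φ) (x := 2)
    simpa using this
  obtain ⟨l, hl⟩ : ∃ l, 4 * p = l + 2 := ⟨4 * p - 2, by omega⟩
  have hl8 : 8 * p - 1 = 2 * l + 3 := by omega
  have hlev : Even l := ⟨2 * p - 1, by omega⟩
  have E := Pool.Agent.H52R2.PiT6.S_hom_proof GaussianInt pa py pb pab pd1 (2 * p) (8 * p - 1) ΦG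
    hdegG
  rw [show 8 * p - 1 + 1 = 8 * p by omega, hl8] at E
  obtain ⟨H, hH⟩ : ∃ H, H = Hom pa py (2 * l + 3) ΦG := ⟨_, rfl⟩
  rw [← hH] at E
  obtain ⟨W, hW⟩ : ∃ W, W = Hom pa py (8 * p) (LL (2 * p) ΦG) := ⟨_, rfl⟩
  rw [← hW] at E
  have hcast : (2 * ((2 * p : ℕ) : GaussianInt[X]) - 1) = (l : GaussianInt[X]) + 1 := by
    have : ((4 * p : ℕ) : GaussianInt[X]) = ((l + 2 : ℕ) : GaussianInt[X]) := by rw [hl]
    push_cast at this ⊢
    linear_combination this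
  rw [hcast] at E
  obtain ⟨Y, hY⟩ := two_pow_dvd (2 * p + t)
  rw [show 3 * (2 * p + t) / 2 = 3 * p + 3 * t / 2 by omega] at hY
  -- the right hand side
  obtain ⟨Z, hZ⟩ : ∃ Z : GaussianInt[X],
      Z = Y * pz ^ (2 * p + t) * ((pa - 3 * py) ^ (4 * p) * py ^ (2 * p - t)) := ⟨_, rfl⟩
  have hW2 : W = 8 ^ (2 * p) * (L : GaussianInt[X]) * (2 ^ (3 * p + 3 * t / 2) * Z -
      (k : GaussianInt[X]) * (16 ^ p * pD ^ (l + 2) * py ^ (l + 2))) := by
    have h1 : (8 ^ (2 * p) * (L : GaussianInt[X])) = C (8 ^ (2 * p) * (L : GaussianInt)) := by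
      rw [C_mul, C_pow, map_natCast, map_ofNat]
    have h2 : pa - 2 * py = 2 * (1 + Ig) * pz := by
      unfold pa
      ring
    have h3 : (pb ^ 2) ^ (2 * p) = 16 ^ p * pD ^ (4 * p) := by
      rw [← pow_mul, show 2 * (2 * p) = 4 * p by ring, pow_mul pb 4 p, pb4, mul_pow, ← pow_mul]
    rw [hW, hG, h1, Hom_C_mul, Hom_sub, Hom_C_mul, Hom_Q pa py p t ht, Hom_QQ, pab, h2, h3,
      mul_pow _ pz, hY, hZ, ← hl]
    have h4 : (C (k : GaussianInt) : GaussianInt[X]) = (k : GaussianInt[X]) := map_intCast C k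
    rw [h4]
    ring
  obtain ⟨N, hN⟩ : ∃ N : GaussianInt[X], N = -2 * Ig * H := ⟨_, rfl⟩
  obtain ⟨V, hV⟩ : ∃ V : GaussianInt[X], V = py ^ (l + 2) * pD ^ (l + 1) := ⟨_, rfl⟩
  have hN' : derivative N = -2 * Ig * derivative H := by
    rw [hN, derivative_mul, derivative_mul, derivative_neg, d2, dIg]
    ring
  have hV' : derivative V = ((l : GaussianInt[X]) + 2) * py ^ (l + 1) * derivative py *
      pD ^ (l + 1) + py ^ (l + 2) * (((l : GaussianInt[X]) + 1) * pD ^ l * derivative pD) := by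
    rw [hV, derivative_mul, derivative_pow_succ, derivative_pow_succ]
    simp only [map_add, map_natCast, map_one, Nat.cast_add, Nat.cast_one]
    ring
  have key : derivative N * V - N * derivative V = py ^ (l + 1) * pD ^ l * derivative py * W := by
    rw [hN', hV', hN, hV]
    exact core py (derivative py) pD (derivative pD) pa H (derivative H) Ig W l pd2
      (by rw [pb] at E; exact E)
  -- the logarithm
  obtain ⟨Lam, hLd, hL0, hL1, hLam⟩ := exists_log ℓ p (by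
    rw [hℓdef]
    exact lcm_dvd p)
  obtain ⟨κ, hκ⟩ : ∃ κ : GaussianInt[X],
      κ = 8 ^ (2 * p) * (L : GaussianInt[X]) * (k : GaussianInt[X]) * 16 ^ p := ⟨_, rfl⟩
  obtain ⟨N₁, hN₁⟩ : ∃ N₁ : GaussianInt[X],
      N₁ = 4 * (ℓ : GaussianInt[X]) * N + κ * (Lam * V) := ⟨_, rfl⟩
  have hconst : ∀ c : GaussianInt[X], (∃ b : GaussianInt, c = C b) → derivative c = 0 := by
    rintro c ⟨b, rfl⟩
    exact derivative_C
  have hdκ : derivative κ = 0 := by
    refine hconst κ ⟨8 ^ (2 * p) * (L : GaussianInt) * (k : GaussianInt) * 16 ^ p, ?_⟩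
    rw [hκ]
    simp only [map_mul, map_pow, map_natCast, map_intCast, map_ofNat]
  have hdℓ : derivative (4 * (ℓ : GaussianInt[X])) = 0 := by
    refine hconst _ ⟨4 * (ℓ : GaussianInt), ?_⟩
    simp only [map_mul, map_natCast, map_ofNat]
  have key2 : derivative N₁ * V - N₁ * derivative V =
      4 * (ℓ : GaussianInt[X]) * derivative py * (8 ^ (2 * p) * (L : GaussianInt[X])) *
        (py ^ (l + 1) * pD ^ l * (2 ^ (3 * p + 3 * t / 2) * Z) -
          (k : GaussianInt[X]) * 16 ^ p * py ^ (2 * l + 3) * pD ^ (2 * l + 2) *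
            (-(py ^ 4 - 1)) ^ p) := by
    have h1 : derivative N₁ = 4 * (ℓ : GaussianInt[X]) * derivative N +
        κ * (derivative Lam * V + Lam * derivative V) := by
      rw [hN₁, derivative_add, derivative_mul, derivative_mul (f := κ), hdκ, hdℓ, derivative_mul]
      ring
    have h2 : derivative Lam * V ^ 2 = py ^ (2 * l + 3) * pD ^ (2 * l + 2) *
        (py * derivative Lam) := by
      rw [hV]
      ring
    have h3 : derivative N₁ * V - N₁ * derivative V =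
        4 * (ℓ : GaussianInt[X]) * (derivative N * V - N * derivative V) +
          κ * (derivative Lam * V ^ 2) := by
      rw [h1, hN₁]
      ring
    rw [h3, key, h2, hLam, hW2, hκ]
    ring
  obtain ⟨c, hc⟩ : ∃ c, c = 9 * p + e + 3 * t / 2 := ⟨_, rfl⟩
  have hdvd : C (2 ^ c : GaussianInt) ∣ derivative N₁ * V - N₁ * derivative V := by
    have h1 : (C (2 ^ c : GaussianInt) : GaussianInt[X]) = 2 ^ c := by
      simp only [map_pow, map_ofNat]
    have h2 : (8 : GaussianInt[X]) ^ (2 * p) * (L : GaussianInt[X]) =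
        2 ^ (6 * p + e) * (L' : GaussianInt[X]) := by
      rw [hL]
      push_cast
      rw [show (8 : GaussianInt[X]) = 2 ^ 3 by norm_num, ← pow_mul, pow_add,
        show 3 * (2 * p) = 6 * p by ring]
      ring
    have h3 : (16 : GaussianInt[X]) ^ p * (-(py ^ 4 - 1)) ^ p =
        2 ^ (3 * p + 3 * t / 2) * (2 ^ (3 * p - 3 * t / 2) * (-gq) ^ p) := by
      rw [py4, ← mul_assoc, ← pow_add, show 3 * p + 3 * t / 2 + (3 * p - 3 * t / 2) = 6 * p by
        omega, ← mul_pow, pow_mul, ← mul_pow]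
      congr 1
      ring
    rw [key2, h1, hc]
    refine ⟨4 * (ℓ : GaussianInt[X]) * derivative py * (L' : GaussianInt[X]) *
      (py ^ (l + 1) * pD ^ l * Z - (k : GaussianInt[X]) * py ^ (2 * l + 3) * pD ^ (2 * l + 2) *
        (2 ^ (3 * p - 3 * t / 2) * (-gq) ^ p)), ?_⟩
    have h4 : (2 : GaussianInt[X]) ^ (9 * p + e + 3 * t / 2) =
        2 ^ (6 * p + e) * 2 ^ (3 * p + 3 * t / 2) := by
      rw [← pow_add]
      congr 1
      ring
    rw [h4, h2]
    linear_combination (-(4 * (ℓ : GaussianInt[X]) * derivative py *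
      (2 ^ (6 * p + e) * (L' : GaussianInt[X])) * (k : GaussianInt[X]) * py ^ (2 * l + 3) *
        pD ^ (2 * l + 2))) * h3
  obtain ⟨U, hU⟩ := V_mod (l + 2) (l + 1)
  rw [← hV] at hU
  have hig4 : ig ^ (l + 2) = 1 := by
    rw [← hl, pow_mul]
    have : ig ^ 4 = 1 := by
      have h3 : ig ^ 4 = (ig * ig) ^ 2 := by ring
      rw [h3, ig_sq]; norm_num
    rw [this, one_pow]
  have hV0 : V.eval 0 * 1 = 1 := by
    rw [hV, eval_mul, eval_pow, eval_pow]
    have h3 : py.eval 0 = 1 := by simp [py]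
    have h4 : pD.eval 0 = 1 := by simp [pD]
    rw [h3, h4]; simp
  have hV1 : V.eval 1 * (-ig) = 1 := by
    rw [hV, eval_mul, eval_pow, eval_pow, py_one, pD_one, hig4, one_mul, ← pow_succ,
      show l + 1 + 1 = l + 2 by ring, neg_pow, hig4]
    rw [Even.neg_one_pow (by rw [← hl]; exact ⟨2 * p, by ring⟩)]
    norm_num
  have hdN : N.natDegree ≤ 2 * (2 * l + 3) := by
    have h3 : N = C (-2 * ig) * H := by
      rw [hN, C_mul, C_neg]
      simp only [map_ofNat]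
      rfl
    rw [h3, hH]
    exact (natDegree_C_mul_le _ _).trans (natDegree_Hom pa py _ _ natDegree_pa natDegree_py)
  have hdV : V.natDegree ≤ (l + 2) * 1 + (l + 1) * 2 := by
    rw [hV]
    refine natDegree_mul_le.trans (Nat.add_le_add ?_ ?_)
    · exact natDegree_pow_le.trans (Nat.mul_le_mul_left _ natDegree_py)
    · exact natDegree_pow_le.trans (Nat.mul_le_mul_left _ natDegree_pD)
  have hdN₁ : N₁.natDegree ≤ 16 * p := by
    have h3 : N₁ = C (4 * (ℓ : GaussianInt)) * N +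
        C (8 ^ (2 * p) * (L : GaussianInt) * (k : GaussianInt) * 16 ^ p) * (Lam * V) := by
      rw [hN₁, hκ]
      simp only [map_mul, map_pow, map_natCast, map_intCast, map_ofNat]
    rw [h3]
    refine (natDegree_add_le _ _).trans (max_le ?_ ?_)
    · exact (natDegree_C_mul_le _ _).trans (by omega)
    · exact (natDegree_C_mul_le _ _).trans (natDegree_mul_le.trans (by omega))
  have hsize : N₁.natDegree + 2 * c * V.natDegree < 2 ^ (d + 1) := by
    have h3 : 1000 * p ^ 2 < 2 ^ (d + 1) := by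
      rw [hd]
      exact Nat.lt_pow_succ_log_self (by norm_num) _
    refine lt_of_le_of_lt ?_ h3
    have h4 : V.natDegree ≤ 12 * p := by omega
    have h6 : 2 * c ≤ 32 * p := by omega
    calc N₁.natDegree + 2 * c * V.natDegree ≤ 16 * p + (32 * p) * (12 * p) :=
          Nat.add_le_add hdN₁ (Nat.mul_le_mul h6 h4)
      _ ≤ 1000 * p ^ 2 := by nlinarith
  obtain ⟨m, hmodd, w, hw⟩ := Pool.Agent.H409R2.Pi.s_disc N₁ V U c d 1 (-ig) hU hdvd hV0 hV1 hsize
  have hN0 : N.eval 0 * 1 = -2 * ig * ((Φ.eval 2 : ℤ) : GaussianInt) := by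
    rw [hN, eval_mul, eval_mul, Ig_at, hH, Hom_at_zero _ _ (by rw [← hl8]; exact hdegG), hevG]
    simp
  have hN1 : N.eval 1 * (-ig) = 2 * ig * ((Φ.eval 2 : ℤ) : GaussianInt) := by
    rw [hN, eval_mul, eval_mul, Ig_at, hH, Hom_at_one _ _ (by rw [← hl8]; exact hdegG), hevG,
      ig_pow l hlev]
    simp only [eval_neg, eval_ofNat]
    linear_combination (-2 * ig * ((Φ.eval 2 : ℤ) : GaussianInt)) * ig_sq
  have hN₁0 : N₁.eval 0 * 1 = 4 * (ℓ : GaussianInt) * (N.eval 0 * 1) := by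
    rw [hN₁]
    simp only [eval_add, eval_mul, hL0, eval_ofNat, eval_natCast]
    ring
  have hN₁1 : N₁.eval 1 * (-ig) = 4 * (ℓ : GaussianInt) * (N.eval 1 * (-ig)) := by
    rw [hN₁]
    simp only [eval_add, eval_mul, hL1, eval_ofNat, eval_natCast]
    ring
  rw [hN₁0, hN₁1, hN0, hN1] at hw
  have hw2 : (((16 * m * 2 ^ d * ℓ : ℕ) : ℤ) * Φ.eval 2 : ℤ) = 2 ^ c * w.im := by
    have h3 : ((((16 * m * 2 ^ d * ℓ : ℕ) : ℤ) * Φ.eval 2 : ℤ) : GaussianInt) * ig =
        ((2 ^ c : ℤ) : GaussianInt) * w := by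
      push_cast
      linear_combination hw
    generalize (((16 * m * 2 ^ d * ℓ : ℕ) : ℤ) * Φ.eval 2 : ℤ) = A at h3 ⊢
    generalize (2 ^ c : ℤ) = B at h3 ⊢
    have h4 := congrArg Zsqrtd.im h3
    simpa [Zsqrtd.im_mul, ig] using h4
  refine ⟨m * ℓ', hmodd.mul hℓ'odd, w.im, ?_⟩
  rw [← hc, ← hw2, hℓ]
  push_cast
  ring

theorem two1 : S_two1 := by
  refine ⟨12, fun p t hp ht => ?_⟩
  obtain ⟨k, Φ, h1, h2, h3⟩ := sol_int p hp (4 * p) (by omega) ((X - 2) ^ t) (by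
    have h4 : ((X - 2 : ℤ[X]) ^ t).natDegree ≤ t * 1 := by
      refine natDegree_pow_le.trans ?_
      have : (X - 2 : ℤ[X]).natDegree ≤ 1 := by compute_degree
      gcongr
    omega)
  have hmap : ((X - 2 : ℤ[X]) ^ t).map (Int.castRingHom ℚ) = (X - 2) ^ t := by
    simp only [Polynomial.map_sub, Polynomial.map_pow, Polynomial.map_X, Polynomial.map_ofNat]
  rw [hmap] at h3
  have h4 := (eq_of_Sl hp h3).2
  obtain ⟨m, hm, w, hw⟩ := two_int p t hp ht k Φ (by omega) h2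
  obtain ⟨L', hL, hL'odd⟩ := lcm_two' (4 * p)
  obtain ⟨e, he⟩ : ∃ e, e = Nat.log 2 (4 * p) := ⟨_, rfl⟩
  obtain ⟨d, hd⟩ : ∃ d, d = Nat.log 2 (1000 * p ^ 2) := ⟨_, rfl⟩
  rw [← he] at hL hw
  rw [← hd] at hw
  have hLne : (Nat.lcmUpto (4 * p) : ℚ) ≠ 0 := by exact_mod_cast (Nat.lcmUpto_pos (4 * p)).ne'
  have hev : (Φ.map (Int.castRingHom ℚ)).eval 2 = ((Φ.eval 2 : ℤ) : ℚ) := by
    have := Polynomial.eval_map_apply (f := Int.castRingHom ℚ) (p := Φ) (x := 2)
    simpa using this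
  have hbf : bf p ((X - 2) ^ t) * 16 ^ p * (8 ^ (2 * p) * (Nat.lcmUpto (4 * p) : ℚ)) =
      8 * ((Φ.eval 2 : ℤ) : ℚ) := by
    rw [bf, h4, eval_mul, eval_C, hev]
    field_simp
  have hwq : ((m : ℚ) * 2 ^ (d + 4 + Nat.log 2 p)) * ((Φ.eval 2 : ℤ) : ℚ) =
      2 ^ (9 * p + e + 3 * t / 2) * (w : ℚ) := by
    exact_mod_cast hw
  -- the main equation
  have hmain : ((m * L' : ℕ) : ℚ) * 2 ^ (d + 1 + Nat.log 2 p + p) * bf p ((X - 2) ^ t) =
      2 ^ (3 * t / 2) * (w : ℚ) := by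
    rw [hL] at hbf
    push_cast at hbf ⊢
    have h5 : (2 : ℚ) ^ (9 * p + e + 3) ≠ 0 := by positivity
    apply mul_left_cancel₀ h5
    have e1 : (16 : ℚ) ^ p = 2 ^ (4 * p) := by
      rw [show (16 : ℚ) = 2 ^ 4 by norm_num, ← pow_mul]
    have e2 : (8 : ℚ) ^ (2 * p) = 2 ^ (6 * p) := by
      rw [show (8 : ℚ) = 2 ^ 3 by norm_num, ← pow_mul]
      congr 1
      ring
    rw [e1, e2] at hbf
    have e3 : (2 : ℚ) ^ (9 * p + e + 3) * (m * L' * 2 ^ (d + 1 + Nat.log 2 p + p) *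
        bf p ((X - 2) ^ t)) = (m * 2 ^ (d + 4 + Nat.log 2 p)) *
          (bf p ((X - 2) ^ t) * 2 ^ (4 * p) * (2 ^ (6 * p) * (2 ^ e * L'))) := by
      have e4 : (2 : ℚ) ^ (9 * p + e + 3) * 2 ^ (d + 1 + Nat.log 2 p + p) =
          2 ^ (d + 4 + Nat.log 2 p) * (2 ^ (4 * p) * (2 ^ (6 * p) * 2 ^ e)) := by
        rw [← pow_add, ← pow_add, ← pow_add, ← pow_add]
        congr 1
        ring
      linear_combination (m * L' * bf p ((X - 2) ^ t)) * e4
    rw [e3, hbf]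
    have e5 : (2 : ℚ) ^ (9 * p + e + 3) * (2 ^ (3 * t / 2) * (w : ℚ)) =
        8 * (2 ^ (9 * p + e + 3 * t / 2) * (w : ℚ)) := by
      rw [pow_add _ (9 * p + e) 3, pow_add _ (9 * p + e) (3 * t / 2)]
      ring
    rw [e5, ← hwq]
    ring
  have hodd : padicNorm 2 ((m * L' : ℕ) : ℚ) = 1 := by
    have h5 : Odd (m * L') := hm.mul hL'odd
    rw [padicNorm.nat_eq_one_iff]
    intro h6
    exact (Nat.not_even_iff_odd.2 h5) (even_iff_two_dvd.2 h6)
  have hp2 : ∀ n : ℕ, padicNorm 2 ((2 : ℚ) ^ n) = ((2 : ℚ) ^ n)⁻¹ := by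
    intro n
    have h5 : padicNorm 2 (2 : ℚ) = 2⁻¹ := by
      have := padicNorm.padicNorm_p (p := 2) (by norm_num)
      exact_mod_cast this
    induction n with
    | zero => rw [pow_zero, padicNorm.one, inv_one]
    | succ n ih => rw [pow_succ, padicNorm.mul, ih, h5, mul_inv]
  have hnorm := congrArg (padicNorm 2) hmain
  rw [padicNorm.mul, padicNorm.mul, padicNorm.mul, hodd, one_mul, hp2, hp2] at hnorm
  have hw1 : padicNorm 2 (w : ℚ) ≤ 1 := padicNorm.of_int w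
  have h6 : padicNorm 2 (bf p ((X - 2) ^ t)) * 2 ^ (3 * t / 2) ≤
      2 ^ (d + 1 + Nat.log 2 p + p) := by
    have h7 : (0 : ℚ) < 2 ^ (d + 1 + Nat.log 2 p + p) := by positivity
    have h8 : (0 : ℚ) < 2 ^ (3 * t / 2) := by positivity
    have h9 : padicNorm 2 (bf p ((X - 2) ^ t)) * 2 ^ (3 * t / 2) =
        2 ^ (d + 1 + Nat.log 2 p + p) * padicNorm 2 (w : ℚ) := by
      field_simp at hnorm
      linarith
    rw [h9]
    nlinarith
  refine h6.trans ?_
  apply pow_le_pow_right₀ (by norm_num)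
  have h7 : d ≤ 11 + 2 * Nat.log 2 p := by
    rw [hd]
    have h8 : p < 2 ^ (Nat.log 2 p + 1) := Nat.lt_pow_succ_log_self (by norm_num) _
    have h9 : 1000 * p ^ 2 < 2 ^ (12 + 2 * Nat.log 2 p) := by
      have h10 : p ^ 2 < (2 ^ (Nat.log 2 p + 1)) ^ 2 := Nat.pow_lt_pow_left h8 (by norm_num)
      have h11 : (2 : ℕ) ^ (12 + 2 * Nat.log 2 p) = 1024 * (2 ^ (Nat.log 2 p + 1)) ^ 2 := by
        rw [← pow_mul, show (1024 : ℕ) = 2 ^ 10 by norm_num, ← pow_add]
        congr 1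
        ring
      rw [h11]
      omega
    have h10 := Nat.log_lt_of_lt_pow (by positivity) h9
    omega
  nlinarith [Nat.zero_le (Nat.log 2 p)]

end Pool.Agent.Y275.PiH
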